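import Pool.Agent.Helper360.NM.P_necessity

set_option maxHeartbeats 4000000

open Metric

namespace Pool.Agent.Results.MP_b4c8d9_an.MultiplierTheorem

/-- The characteristic `T(r,f) = (1/2π) ∫_0^{2π} log⁺ |f(r e^{iθ})| dθ`
(`Real.posLog x = max 0 (log x)`). -/
noncomputable def T (r : ℝ) (f : ℂ → ℂ) : ℝ :=
  (2 * Real.pi)⁻¹ * ∫ θ in (0 : ℝ)..(2 * Real.pi),
    Real.posLog ‖f ((r : ℂ) * Complex.exp ((θ : ℂ) * Complex.I))‖

/-- The Nevanlinna class `N`: the functions `f` which are holomorphic in the open unit disc and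
satisfy `sup_{0<r<1} T(r,f) < ∞`. -/
def NevanlinnaClass : Set (ℂ → ℂ) :=
  {f | DifferentiableOn ℂ f (ball 0 1) ∧ ∃ K : ℝ, ∀ r : ℝ, 0 < r → r < 1 → T r f ≤ K}

/-- `f(z) = ∑ a_n z^n` for all `z` in the open unit disc. -/
def IsPowerSeriesOf (a : ℕ → ℂ) (f : ℂ → ℂ) : Prop :=
  ∀ z ∈ ball (0 : ℂ) 1, HasSum (fun n => a n * z ^ n) (f z)

/-- `l` is a coefficient multiplier from `N` to `N`: for every `f(z) = ∑ a_n z^n` in `N` the power
series `∑ l_n a_n z^n` converges in the disc to a function of the class `N`. -/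
def IsMultiplier (l : ℕ → ℂ) : Prop :=
  ∀ (a : ℕ → ℂ) (f : ℂ → ℂ), f ∈ NevanlinnaClass → IsPowerSeriesOf a f →
    ∃ g ∈ NevanlinnaClass, IsPowerSeriesOf (fun n => l n * a n) g

/-- **Characterisation of the coefficient multipliers of the Nevanlinna class.**
A complex sequence `(l_n)` is a coefficient multiplier from `N` to `N` if and only if there are
finitely many points `w_1, …, w_m` of the unit circle and complex numbers `c_1, …, c_m` such that
`l_n = ∑_j c_j w_j^n + O(exp(-C √n))` for every real number `C`. -/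
theorem result (l : ℕ → ℂ) :
    IsMultiplier l ↔
      ∃ (m : ℕ) (c w : Fin m → ℂ), (∀ j, ‖w j‖ = 1) ∧
        ∀ C : ℝ, ∃ A : ℝ, ∀ n : ℕ,
          ‖l n - ∑ j, c j * w j ^ n‖ ≤ A * Real.exp (-(C * Real.sqrt n)) := by
  constructor
  · intro h
    apply NM.necessity l
    intro a f hf hs
    obtain ⟨g, hg, hgs⟩ := h a f hf hs
    exact ⟨g, hg, hgs⟩
  · rintro ⟨m, c, w, hw, h⟩ a f hf hs
    obtain ⟨g, hg, hgs⟩ := NM.sufficiency l m c w hw h a f hf hs
    exact ⟨g, hg, hgs⟩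

end Pool.Agent.Results.MP_b4c8d9_an.MultiplierTheorem
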